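import Mathlib

set_option autoImplicit false

namespace Pool.Agent.Results.MP_924435_co.Finite

open Finset MeasureTheory

/-- `p` lies in the cell `[i/k, (i+1)/k) × [j/k, (j+1)/k)`. -/
def InCell (k i j : ℕ) (p : ℝ × ℝ) : Prop :=
  ((i : ℝ) / k ≤ p.1 ∧ p.1 < (i + 1) / k) ∧ ((j : ℝ) / k ≤ p.2 ∧ p.2 < (j + 1) / k)

/-- The points `x 0, …, x (K^2 - 1)` form a `K`-good sequence in `[0,1)^2`. -/
def Good (K : ℕ) (x : ℕ → ℝ × ℝ) : Prop :=
  (∀ n < K ^ 2, (0 ≤ (x n).1 ∧ (x n).1 < 1) ∧ (0 ≤ (x n).2 ∧ (x n).2 < 1)) ∧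
  ∀ k, 1 ≤ k → k ≤ K → ∀ i < k, ∀ j < k, ∃! n, n < k ^ 2 ∧ InCell k i j (x n)

def InU (p : ℝ × ℝ) : Prop :=
  (1 / 40 ≤ p.1 ∧ p.1 < 1 / 20) ∧ (1 / 1680 ≤ p.2 ∧ p.2 < 1 / 840)

lemma hit (a : ℝ) (T k : ℕ) (hT : 0 < T) (ha : 1 / (T : ℝ) ≤ a) :
    ∃ j m : ℕ, k ≤ j ∧ j ≤ k + T + 1 ∧ (m : ℝ) ≤ j * a ∧ j * a < m + a := by
  have hT' : (0 : ℝ) < T := by exact_mod_cast hT
  have ha0 : 0 < a := lt_of_lt_of_le (by positivity) ha
  have h1 := Nat.lt_floor_add_one (k * a)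
  have h2 := Nat.floor_le (show 0 ≤ k * a by positivity)
  set m : ℝ := (⌊k * a⌋₊ : ℝ) + 1 with hm
  have h3 := Nat.le_ceil (m / a)
  have h4 := Nat.ceil_lt_add_one (show 0 ≤ m / a by positivity)
  have h5 : 1 ≤ a * T := by rwa [div_le_iff₀ hT'] at ha
  refine ⟨⌈m / a⌉₊, ⌊k * a⌋₊ + 1, ?_, ?_, ?_, ?_⟩
  · have : (k : ℝ) ≤ m / a := by rw [le_div_iff₀ ha0]; exact h1.le
    exact_mod_cast this.trans h3
  · have : m / a ≤ k + T := by rw [div_le_iff₀ ha0]; nlinarith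
    have : (⌈m / a⌉₊ : ℝ) ≤ k + T + 1 := by linarith
    exact_mod_cast this
  · push_cast; rwa [div_le_iff₀ ha0] at h3
  · push_cast
    have : (⌈m / a⌉₊ - 1 : ℝ) < m / a := by linarith
    rw [lt_div_iff₀ ha0] at this
    linarith

lemma coord {j m : ℕ} {u v s : ℝ} (hj : 0 < j) (hs : j * s ≤ 19 / 20) (huv : |u - v| < s)
    (h1 : (m : ℝ) ≤ j * min u v) (h2 : j * min u v ≤ m + 1 / 20) :
    (m : ℝ) / j ≤ u ∧ u < (m + 1) / j := by
  have hj' : (0 : ℝ) < j := by exact_mod_cast hj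
  rw [div_le_iff₀ hj', lt_div_iff₀ hj']
  have h3 := abs_lt.1 huv
  constructor
  · nlinarith [min_le_left u v]
  · have : u < min u v + s := by
      rcases le_total u v with h | h
      · rw [min_eq_left h]; linarith [abs_nonneg (u - v)]
      · rw [min_eq_right h]; linarith
    nlinarith

lemma sep {K k : ℕ} {x : ℕ → ℝ × ℝ} (hx : Good K x) (hk : 1 ≤ k) (hK : k + 1722 ≤ K) {n n' : ℕ}
    (hn : n < k ^ 2) (hn' : n' < k ^ 2) (hU : InU (x n)) (hU' : InU (x n')) {s : ℝ}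
    (hs : (k + 1722) * s ≤ 19 / 20) (h1 : |(x n).1 - (x n').1| < s)
    (h2 : |(x n).2 - (x n').2| < s) : n = n' := by
  have hs0 : 0 < s := (abs_nonneg _).trans_lt h1
  obtain ⟨j0, m2, a1, a2, a3, a4⟩ := hit (min (x n).2 (x n').2) 1680 k (by norm_num)
    (le_min (by exact_mod_cast hU.2.1) (by exact_mod_cast hU'.2.1))
  obtain ⟨j, m1, b1, b2, b3, b4⟩ := hit (min (x n).1 (x n').1) 40 j0 (by norm_num)
    (le_min (by exact_mod_cast hU.1.1) (by exact_mod_cast hU'.1.1))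
  have hj : 0 < j := by omega
  have hj' : (0 : ℝ) < j := by exact_mod_cast hj
  have hjs : j * s ≤ 19 / 20 := by
    have : (j : ℝ) ≤ k + 1722 := by exact_mod_cast (by omega : j ≤ k + 1722)
    nlinarith
  have c1 : min (x n).1 (x n').1 < 1 / 20 := (min_le_left _ _).trans_lt hU.1.2
  have c2 : min (x n).2 (x n').2 < 1 / 840 := (min_le_left _ _).trans_lt hU.2.2
  have c3 : 0 < min (x n).2 (x n').2 := lt_min (by linarith [hU.2.1]) (by linarith [hU'.2.1])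
  have d1 : (j0 : ℝ) ≤ j := by exact_mod_cast b1
  have d2 : (j : ℝ) ≤ j0 + 41 := by exact_mod_cast b2
  have e1 : (m2 : ℝ) ≤ j * min (x n).2 (x n').2 := by nlinarith
  have e2 : j * min (x n).2 (x n').2 ≤ m2 + 1 / 20 := by nlinarith
  have f1 : m1 < j := by
    have : (m1 : ℝ) < j := by nlinarith
    exact_mod_cast this
  have f2 : m2 < j := by
    have : (m2 : ℝ) < j := by nlinarith
    exact_mod_cast this
  have hk2 : k ^ 2 ≤ j ^ 2 := Nat.pow_le_pow_left (by omega) 2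
  refine (hx.2 j hj (by omega) m1 f1 m2 f2).unique ⟨by omega, ?_, ?_⟩ ⟨by omega, ?_, ?_⟩
  · exact coord hj hjs h1 b3 (by linarith)
  · exact coord hj hjs h2 e1 e2
  · exact coord hj hjs (by rwa [abs_sub_comm]) (by rwa [min_comm]) (by rw [min_comm]; linarith)
  · exact coord hj hjs (by rwa [abs_sub_comm]) (by rwa [min_comm]) (by rwa [min_comm])

open Classical in
lemma count {K N : ℕ} {x : ℕ → ℝ × ℝ} (hx : Good K x) (hN : 1 ≤ N) (hK : 1680 * N ≤ K) :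
    42 * N * N ≤ ((range ((1680 * N) ^ 2)).filter fun n => InU (x n)).card := by
  have hN' : (0 : ℝ) < N := by exact_mod_cast hN
  have ex : ∀ c : ℕ × ℕ, c ∈ Ico (42 * N) (84 * N) ×ˢ Ico N (2 * N) →
      ∃ n, n < (1680 * N) ^ 2 ∧ InCell (1680 * N) c.1 c.2 (x n) := by
    intro c hc
    simp only [mem_product, mem_Ico] at hc
    exact (hx.2 _ (by omega) hK c.1 (by omega) c.2 (by omega)).exists
  choose! f hf using ex
  have := card_le_card_of_injOn (s := Ico (42 * N) (84 * N) ×ˢ Ico N (2 * N))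
    (t := (range ((1680 * N) ^ 2)).filter fun n => InU (x n)) f ?_ ?_
  · rw [card_product, Nat.card_Ico, Nat.card_Ico] at this
    rwa [show 84 * N - 42 * N = 42 * N by omega, show 2 * N - N = N by omega] at this
  · intro c hc
    obtain ⟨h1, ⟨h2, h3⟩, h4, h5⟩ := hf c hc
    simp only [coe_product, Set.mem_prod, mem_coe, mem_Ico] at hc
    have g1 : (42 * N : ℝ) ≤ c.1 := by exact_mod_cast hc.1.1
    have g2 : (c.1 + 1 : ℝ) ≤ 84 * N := by exact_mod_cast hc.1.2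
    have g3 : (N : ℝ) ≤ c.2 := by exact_mod_cast hc.2.1
    have g4 : (c.2 + 1 : ℝ) ≤ 2 * N := by exact_mod_cast hc.2.2
    push_cast at h2 h3 h4 h5
    rw [div_le_iff₀ (by positivity)] at h2 h4
    rw [lt_div_iff₀ (by positivity)] at h3 h5
    simp only [coe_filter, mem_range, Set.mem_setOf_eq]
    refine ⟨h1, ⟨?_, ?_⟩, ?_, ?_⟩ <;> nlinarith
  · intro c hc d hd h
    obtain ⟨-, ⟨h2, h3⟩, h4, h5⟩ := hf c hc
    obtain ⟨-, ⟨g2, g3⟩, g4, g5⟩ := hf d hd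
    rw [h] at h2 h3 h4 h5
    have key : ∀ (a b : ℕ) (t : ℝ), (a : ℝ) / (1680 * N : ℕ) ≤ t → t < (b + 1) / (1680 * N : ℕ) →
        a ≤ b := by
      intro a b t h1 h2
      have := (div_lt_div_iff_of_pos_right (by positivity)).1 (h1.trans_lt h2)
      have : a < b + 1 := by exact_mod_cast this
      omega
    exact Prod.ext (le_antisymm (key _ _ _ h2 g3) (key _ _ _ g2 h3))
      (le_antisymm (key _ _ _ h4 g5) (key _ _ _ g4 h5))

lemma not_good {K : ℕ} {x : ℕ → ℝ × ℝ} (hx : Good K x) : K < 136122 := by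
  classical
  by_contra hK
  have c1 := count (N := 60) hx (by norm_num) (by omega)
  have c2 := count (N := 80) hx (by norm_num) (by omega)
  obtain ⟨A, hA⟩ : ∃ A, A = (range ((1680 * 80) ^ 2)).filter fun n => InU (x n) := ⟨_, rfl⟩
  rw [← hA] at c2
  obtain ⟨a, ha⟩ : ∃ a : ℝ, a = 19 / 20 / 102522 := ⟨_, rfl⟩
  obtain ⟨b, hb⟩ : ∃ b : ℝ, b = 2 * (19 / 20 / 136122) - a := ⟨_, rfl⟩
  obtain ⟨s, hs⟩ : ∃ s : ℕ → ℝ, ∀ n, s n = if n < (1680 * 60) ^ 2 then a else b :=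
    ⟨_, fun _ => rfl⟩
  have hs0 : ∀ n, 0 < s n ∧ s n ≤ a := by
    intro n; simp only [hs]; split_ifs <;> norm_num [ha, hb]
  obtain ⟨S, hS⟩ : ∃ S : ℕ → Set (ℝ × ℝ), ∀ n, S n =
      Set.Ioo ((x n).1 - s n / 2) ((x n).1 + s n / 2) ×ˢ
      Set.Ioo ((x n).2 - s n / 2) ((x n).2 + s n / 2) := ⟨_, fun _ => rfl⟩
  have hdis : (A : Set ℕ).PairwiseDisjoint S := by
    intro n hn n' hn' hne
    rw [Function.onFun, Set.disjoint_left, hS, hS]
    rintro p ⟨⟨p1, p2⟩, p3, p4⟩ ⟨⟨q1, q2⟩, q3, q4⟩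
    simp only [hA, coe_filter, mem_range, Set.mem_setOf_eq] at hn hn'
    have d1 : |(x n).1 - (x n').1| < (s n + s n') / 2 := abs_lt.2 ⟨by linarith, by linarith⟩
    have d2 : |(x n).2 - (x n').2| < (s n + s n') / 2 := abs_lt.2 ⟨by linarith, by linarith⟩
    by_cases h : n < (1680 * 60) ^ 2 ∧ n' < (1680 * 60) ^ 2
    · refine hne (sep (k := 1680 * 60) hx (by norm_num) (by omega) h.1 h.2 hn.2 hn'.2 ?_ d1 d2)
      simp only [hs, if_pos h.1, if_pos h.2]; norm_num [ha]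
    · refine hne (sep (k := 1680 * 80) hx (by norm_num) (by omega) hn.1 hn'.1 hn.2 hn'.2 ?_ d1 d2)
      simp only [hs]
      split_ifs with g1 g2
      · exact absurd ⟨g1, g2⟩ h
      all_goals norm_num [ha, hb]
  have hvol : ∀ n, volume (S n) = ENNReal.ofReal (s n ^ 2) := by
    intro n
    rw [hS, Measure.volume_eq_prod, Measure.prod_prod, Real.volume_Ioo, Real.volume_Ioo,
      ← ENNReal.ofReal_mul (by linarith [(hs0 n).1])]
    congr 1; ring
  have hsub : (⋃ n ∈ A, S n) ⊆ Set.Ioo (1 / 40 - a / 2) (1 / 20 + a / 2) ×ˢ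
      Set.Ioo (1 / 1680 - a / 2) (1 / 840 + a / 2) := by
    intro p hp
    simp only [Set.mem_iUnion, hS] at hp
    obtain ⟨n, hn, ⟨p1, p2⟩, p3, p4⟩ := hp
    rw [hA] at hn
    obtain ⟨⟨u1, u2⟩, u3, u4⟩ := (mem_filter.1 hn).2
    have := (hs0 n).2
    exact ⟨⟨by linarith, by linarith⟩, by linarith, by linarith⟩
  have hle := measure_mono (μ := volume) hsub
  rw [measure_biUnion_finset hdis (fun n _ => by rw [hS]; exact measurableSet_Ioo.prod measurableSet_Ioo),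
    Measure.volume_eq_prod, Measure.prod_prod, Real.volume_Ioo, Real.volume_Ioo,
    ← ENNReal.ofReal_mul (by norm_num [ha]), ← Measure.volume_eq_prod] at hle
  simp only [hvol] at hle
  rw [← ENNReal.ofReal_sum_of_nonneg (fun n _ => sq_nonneg _),
    ENNReal.ofReal_le_ofReal_iff (by norm_num [ha])] at hle
  have e : ∑ n ∈ A, s n ^ 2 = b ^ 2 * A.card + (a ^ 2 - b ^ 2) *
      (A.filter fun n => n < (1680 * 60) ^ 2).card := by
    rw [← sum_boole, mul_sum, card_eq_sum_ones A, Nat.cast_sum, mul_sum, ← sum_add_distrib]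
    refine sum_congr rfl fun n _ => ?_
    simp only [hs]; split_ifs <;> simp
  have e2 : (A.filter fun n => n < (1680 * 60) ^ 2) =
      (range ((1680 * 60) ^ 2)).filter fun n => InU (x n) := by
    ext n
    simp only [hA, mem_filter, mem_range]
    constructor
    · rintro ⟨⟨_, h2⟩, h3⟩; exact ⟨h3, h2⟩
    · rintro ⟨h1, h2⟩; exact ⟨⟨by omega, h2⟩, h1⟩
  rw [e, e2] at hle
  have c1' : (151200 : ℝ) ≤ ((range ((1680 * 60) ^ 2)).filter fun n => InU (x n)).card := by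
    exact_mod_cast c1
  have c2' : (268800 : ℝ) ≤ A.card := by exact_mod_cast c2
  have g1 := mul_le_mul_of_nonneg_left c1' (show 0 ≤ a ^ 2 - b ^ 2 by norm_num [ha, hb])
  have g2 := mul_le_mul_of_nonneg_left c2' (sq_nonneg b)
  have := (add_le_add g2 g1).trans hle
  norm_num [ha, hb] at this

theorem result :
    (∀ (K : ℕ) (x : ℕ → ℝ × ℝ), Good K x → K < 136122) ∧
      ¬ ∃ x : ℕ → ℝ × ℝ, ∀ K, Good K x :=
  ⟨fun _ _ h => not_good h, fun ⟨_, h⟩ => lt_irrefl _ (not_good (h 136122))⟩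

end Pool.Agent.Results.MP_924435_co.Finite
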